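import Pool.Agent.X282.QV.Fin

/-!
MP_8a049f_an, Q1: for every even `m ≥ 4` every `V > 0` is the volume of a smooth radial solution of
`(-Δ)^m u = (2m-1)! e^(2mu)` in `ℝ^(2m)`, so the set of volumes is exactly `(0, ∞)`.
-/

set_option autoImplicit false

open MeasureTheory

namespace Pool.Agent.Results.MP_8a049f_an.AllVolumes

/-- minus the Laplacian of a function on `ℝ^(2m)` -/
noncomputable def minusLaplacian (m : ℕ) (u : EuclideanSpace ℝ (Fin (2 * m)) → ℝ) :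
    EuclideanSpace ℝ (Fin (2 * m)) → ℝ := fun x => -(Laplacian.laplacian u x)

/-- the set of the volumes `∫ e^(2mu)` of the smooth radial solutions `u` of
`(-Δ)^m u = (2m-1)! e^(2mu)` on `ℝ^(2m)` with finite volume -/
def volumeSet (m : ℕ) : Set ℝ :=
  {V | ∃ u : EuclideanSpace ℝ (Fin (2 * m)) → ℝ, ContDiff ℝ (⊤ : ℕ∞) u ∧
    (∀ x y, ‖x‖ = ‖y‖ → u x = u y) ∧
    (∀ x, (minusLaplacian m)^[m] u x = (Nat.factorial (2 * m - 1) : ℝ) * Real.exp (2 * m * u x)) ∧
    Integrable (fun x => Real.exp (2 * m * u x)) ∧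
    ∫ x, Real.exp (2 * m * u x) = V}

theorem result : ∀ m : ℕ, 4 ≤ m → Even m → volumeSet m = Set.Ioi 0 := by
  intro m hm hme
  rw [← Pool.Agent.X282.QV.volumes_eq m hm hme]
  ext V
  constructor
  · rintro ⟨u, h1, h2, h3, h4, h5⟩
    exact ⟨u, fun n => h1.of_le (by exact_mod_cast le_top), h2, h3, h4, h5⟩
  · rintro ⟨u, h1, h2, h3, h4, h5⟩
    exact ⟨u, contDiff_infty.2 h1, h2, h3, h4, h5⟩

end Pool.Agent.Results.MP_8a049f_an.AllVolumes
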